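import Mathlib

universe u v

namespace Pool.Agent.Results.MP_bd525c_gt.StronglyParacompactProduct

open Set Topology

/-- `IndLE k X` says that the large inductive dimension of `X` is at most `k - 1`. -/
def IndLE : ℕ → (X : Type u) → [TopologicalSpace X] → Prop
  | 0, X, _ => IsEmpty X
  | k + 1, X, _ => ∀ A U : Set X, IsClosed A → IsOpen U → A ⊆ U →
      ∃ V : Set X, IsOpen V ∧ A ⊆ V ∧ closure V ⊆ U ∧ IndLE k (frontier V)

open Classical in
/-- The large inductive dimension, with values in the integers together with infinity. -/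
noncomputable def Ind (X : Type u) [TopologicalSpace X] : WithTop ℤ :=
  if h : ∃ k : ℕ, IndLE k X then (((Nat.find h : ℕ) : ℤ) - 1 : ℤ) else ⊤

/-- The finite sum theorem for `Ind` in `X`: the union of a finite nonempty family of closed
subsets has dimension at most the maximum of the dimensions of the members. -/
def FiniteSumTheorem (X : Type u) [TopologicalSpace X] : Prop :=
  ∀ (n : ℕ) (F : Fin (n + 1) → Set X), (∀ i, IsClosed (F i)) →
    Ind (⋃ i, F i : Set X) ≤ Finset.univ.sup' Finset.univ_nonempty (fun i => Ind (F i))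

/-- Strong paracompactness: every open cover has a star-finite open refinement. -/
def StronglyParacompact (X : Type u) [TopologicalSpace X] : Prop :=
  ∀ 𝒰 : Set (Set X), (∀ U ∈ 𝒰, IsOpen U) → ⋃₀ 𝒰 = univ →
    ∃ 𝒱 : Set (Set X), (∀ V ∈ 𝒱, IsOpen V) ∧ ⋃₀ 𝒱 = univ ∧
      (∀ V ∈ 𝒱, ∃ U ∈ 𝒰, V ⊆ U) ∧ ∀ V ∈ 𝒱, {W ∈ 𝒱 | (V ∩ W).Nonempty}.Finite

section Ambient

/-- Ambient form of `IndLE` through partitions. -/
def PInd {Z : Type u} [TopologicalSpace Z] : ℕ → Set Z → Prop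
  | 0, F => F = ∅
  | k + 1, F => ∀ C D : Set Z, IsClosed C → IsClosed D → C ⊆ F → D ⊆ F → Disjoint C D →
      ∃ U V : Set Z, IsOpen U ∧ IsOpen V ∧ C ⊆ U ∧ D ⊆ V ∧ U ∩ V ∩ F = ∅ ∧
        PInd k (F \ (U ∪ V))

variable {Z : Type u} [TopologicalSpace Z]

lemma PInd.mono_set : ∀ (k : ℕ) {F F' : Set Z}, F' ⊆ F → IsClosed F' → PInd k F → PInd k F' := by
  intro k
  induction k with
  | zero =>
    intro F F' hsub _ h
    have h' : F = ∅ := h
    show F' = ∅
    rw [h'] at hsub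
    exact subset_empty_iff.mp hsub
  | succ k ih =>
    intro F F' hsub hcl h C D hC hD hCF hDF hdisj
    obtain ⟨U, V, hU, hV, hCU, hDV, hUV, hP⟩ :=
      h C D hC hD (hCF.trans hsub) (hDF.trans hsub) hdisj
    refine ⟨U, V, hU, hV, hCU, hDV, ?_, ?_⟩
    · rw [← subset_empty_iff, ← hUV]
      exact inter_subset_inter_right _ hsub
    · exact ih (sdiff_subset_sdiff_left hsub) (hcl.sdiff (hU.union hV)) hP

lemma PInd.succ : ∀ (k : ℕ) {F : Set Z}, PInd k F → PInd (k + 1) F := by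
  intro k
  induction k with
  | zero =>
    intro F h C D hC hD hCF hDF hdisj
    have h' : F = ∅ := h
    subst h'
    refine ⟨∅, ∅, isOpen_empty, isOpen_empty, hCF, hDF, by simp, ?_⟩
    show _ = ∅
    simp
  | succ k ih =>
    intro F h C D hC hD hCF hDF hdisj
    obtain ⟨U, V, hU, hV, hCU, hDV, hUV, hP⟩ := h C D hC hD hCF hDF hdisj
    exact ⟨U, V, hU, hV, hCU, hDV, hUV, ih hP⟩

lemma PInd.mono_nat {k l : ℕ} (hkl : k ≤ l) {F : Set Z} (h : PInd k F) : PInd l F := by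
  induction hkl with
  | refl => exact h
  | step _ ih => exact PInd.succ _ ih

lemma PInd.empty (k : ℕ) : PInd k (∅ : Set Z) :=
  PInd.mono_nat (Nat.zero_le k) (show PInd 0 (∅ : Set Z) from rfl)

lemma PInd_image {W : Type u} [TopologicalSpace W] {f : W → Z} (hf : IsClosedEmbedding f) :
    ∀ (k : ℕ) (S : Set W), PInd k S ↔ PInd k (f '' S) := by
  intro k
  induction k with
  | zero =>
    intro S
    show S = ∅ ↔ f '' S = ∅
    simp
  | succ k ih =>
    intro S
    constructor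
    · intro h C D hC hD hCF hDF hdisj
      have hC' : f ⁻¹' C ⊆ S := by
        intro w hw
        obtain ⟨w', hw', he⟩ := hCF hw
        rwa [← hf.injective he]
      have hD' : f ⁻¹' D ⊆ S := by
        intro w hw
        obtain ⟨w', hw', he⟩ := hDF hw
        rwa [← hf.injective he]
      obtain ⟨U', V', hU', hV', hCU, hDV, hUV, hP⟩ :=
        h (f ⁻¹' C) (f ⁻¹' D) (hC.preimage hf.continuous) (hD.preimage hf.continuous) hC' hD'
          (hdisj.preimage f)
      obtain ⟨U, hU, rfl⟩ := hf.isInducing.isOpen_iff.mp hU'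
      obtain ⟨V, hV, rfl⟩ := hf.isInducing.isOpen_iff.mp hV'
      refine ⟨U, V, hU, hV, ?_, ?_, ?_, ?_⟩
      · intro z hz
        obtain ⟨w, hw, rfl⟩ := hCF hz
        exact hCU hz
      · intro z hz
        obtain ⟨w, hw, rfl⟩ := hDF hz
        exact hDV hz
      · rw [← subset_empty_iff]
        rintro z ⟨⟨hzU, hzV⟩, w, hw, rfl⟩
        have : w ∈ f ⁻¹' U ∩ f ⁻¹' V ∩ S := ⟨⟨hzU, hzV⟩, hw⟩
        rw [hUV] at this
        exact this
      · have : f '' S \ (U ∪ V) = f '' (S \ (f ⁻¹' U ∪ f ⁻¹' V)) := by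
          ext z
          constructor
          · rintro ⟨⟨w, hw, rfl⟩, hz⟩
            exact ⟨w, ⟨hw, hz⟩, rfl⟩
          · rintro ⟨w, ⟨hw, hz⟩, rfl⟩
            exact ⟨⟨w, hw, rfl⟩, hz⟩
        rw [this]
        exact (ih _).mp hP
    · intro h C D hC hD hCF hDF hdisj
      obtain ⟨U, V, hU, hV, hCU, hDV, hUV, hP⟩ :=
        h (f '' C) (f '' D) (hf.isClosedMap _ hC) (hf.isClosedMap _ hD)
          (image_mono hCF) (image_mono hDF) ((disjoint_image_iff hf.injective).mpr hdisj)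
      refine ⟨f ⁻¹' U, f ⁻¹' V, hU.preimage hf.continuous, hV.preimage hf.continuous,
        ?_, ?_, ?_, ?_⟩
      · exact image_subset_iff.mp hCU
      · exact image_subset_iff.mp hDV
      · rw [← subset_empty_iff]
        rintro w ⟨⟨hwU, hwV⟩, hw⟩
        have : f w ∈ U ∩ V ∩ f '' S := ⟨⟨hwU, hwV⟩, w, hw, rfl⟩
        rw [hUV] at this
        exact this
      · have : f '' S \ (U ∪ V) = f '' (S \ (f ⁻¹' U ∪ f ⁻¹' V)) := by
          ext z
          constructor
          · rintro ⟨⟨w, hw, rfl⟩, hz⟩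
            exact ⟨w, ⟨hw, hz⟩, rfl⟩
          · rintro ⟨w, ⟨hw, hz⟩, rfl⟩
            exact ⟨⟨w, hw, rfl⟩, hz⟩
        rw [this] at hP
        exact (ih _).mpr hP

lemma IndLE_iff_univ : ∀ (k : ℕ) (W : Type u) [TopologicalSpace W],
    IndLE k W ↔ PInd k (univ : Set W) := by
  intro k
  induction k with
  | zero =>
    intro W _
    show IsEmpty W ↔ (univ : Set W) = ∅
    exact univ_eq_empty_iff.symm
  | succ k ih =>
    intro W _
    constructor
    · intro h C D hC hD _ _ hdisj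
      obtain ⟨V, hV, hCV, hVD, hI⟩ := h C Dᶜ hC hD.isOpen_compl hdisj.subset_compl_right
      refine ⟨V, (closure V)ᶜ, hV, isClosed_closure.isOpen_compl, hCV, ?_, ?_, ?_⟩
      · exact subset_compl_comm.mp hVD
      · rw [← subset_empty_iff]
        rintro z ⟨⟨h1, h2⟩, _⟩
        exact h2 (subset_closure h1)
      · have h1 : (univ : Set W) \ (V ∪ (closure V)ᶜ) = frontier V := by
          rw [hV.frontier_eq]
          ext z
          simp only [mem_sdiff, mem_univ, mem_union, mem_compl_iff, true_and, not_or, not_not]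
          exact and_comm
        rw [h1]
        have h2 := (ih (frontier V)).mp hI
        have h3 := (PInd_image (isClosed_frontier (s := V)).isClosedEmbedding_subtypeVal k
          univ).mp h2
        rwa [image_univ, Subtype.range_coe] at h3
    · intro h A U hA hU hAU
      obtain ⟨U0, V0, hU0, hV0, hAU0, hDV, hUV, hP⟩ :=
        h A Uᶜ hA hU.isClosed_compl (subset_univ _) (subset_univ _)
          (disjoint_compl_right_iff_subset.mpr hAU)
      have hcl : closure U0 ⊆ V0ᶜ := by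
        apply closure_minimal _ hV0.isClosed_compl
        intro z hz hz'
        have : z ∈ U0 ∩ V0 ∩ univ := ⟨⟨hz, hz'⟩, mem_univ _⟩
        rw [hUV] at this
        exact this
      refine ⟨U0, hU0, hAU0, hcl.trans (compl_subset_comm.mp hDV), ?_⟩
      have h1 : frontier U0 ⊆ univ \ (U0 ∪ V0) := by
        rw [hU0.frontier_eq]
        rintro z ⟨h1, h2⟩
        exact ⟨mem_univ _, fun h => h.elim h2 (hcl h1)⟩
      have h2 := PInd.mono_set k h1 isClosed_frontier hP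
      apply (ih (frontier U0)).mpr
      rw [PInd_image (isClosed_frontier (s := U0)).isClosedEmbedding_subtypeVal k univ,
        image_univ, Subtype.range_coe]
      exact h2

lemma IndLE_iff {F : Set Z} (hF : IsClosed F) (k : ℕ) : IndLE k F ↔ PInd k F := by
  rw [IndLE_iff_univ, PInd_image hF.isClosedEmbedding_subtypeVal k univ, image_univ,
    Subtype.range_coe]

lemma IndLE.mono {k l : ℕ} (hkl : k ≤ l) {W : Type u} [TopologicalSpace W] (h : IndLE k W) :
    IndLE l W := by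
  rw [IndLE_iff_univ] at *
  exact PInd.mono_nat hkl h

lemma Ind_le_iff {W : Type u} [TopologicalSpace W] (k : ℕ) :
    Ind W ≤ (((k : ℤ) - 1 : ℤ) : WithTop ℤ) ↔ IndLE k W := by
  classical
  unfold Ind
  split_ifs with h
  · rw [WithTop.coe_le_coe]
    constructor
    · intro h'
      have : Nat.find h ≤ k := by omega
      exact (Nat.find_spec h).mono this
    · intro h'
      have : Nat.find h ≤ k := Nat.find_min' h h'
      omega
  · constructor
    · intro h'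
      exact absurd h' (by simp)
    · intro h'
      exact absurd ⟨k, h'⟩ h

lemma FiniteSumTheorem.union (h : FiniteSumTheorem Z) (k : ℕ) {A B : Set Z} (hA : IsClosed A)
    (hB : IsClosed B) (hkA : PInd k A) (hkB : PInd k B) : PInd k (A ∪ B) := by
  have h1 := h 1 ![A, B] (by intro i; fin_cases i <;> simp [hA, hB])
  have h2 : (⋃ i, (![A, B] : Fin 2 → Set Z) i) = A ∪ B := by
    ext z
    simp [Fin.exists_fin_two]
  have h3 : IndLE k (⋃ i, (![A, B] : Fin 2 → Set Z) i : Set Z) := by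
    rw [← Ind_le_iff]
    refine h1.trans ?_
    apply Finset.sup'_le
    intro i _
    rw [Ind_le_iff]
    fin_cases i
    · exact (IndLE_iff hA k).mpr hkA
    · exact (IndLE_iff hB k).mpr hkB
  have h4 := (IndLE_iff (F := ⋃ i, (![A, B] : Fin 2 → Set Z) i) (by rw [h2]; exact hA.union hB)
    k).mp h3
  rwa [h2] at h4

end Ambient

section Local

variable {Z : Type u} [TopologicalSpace Z]

/-- A family of sets closed under subsets and finite unions. -/
structure IsIdl (B : Set Z → Prop) : Prop where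
  empty : B ∅
  mono : ∀ {S T : Set Z}, B S → T ⊆ S → B T
  union : ∀ {S T : Set Z}, B S → B T → B (S ∪ T)

/-- Closed sets that belong locally to `B`. -/
def Loc (B : Set Z → Prop) (S : Set Z) : Prop :=
  IsClosed S ∧ ∀ z : Z, ∃ G : Set Z, IsOpen G ∧ z ∈ G ∧ B (S ∩ G)

/-- Every disjoint closed pair in `S` has a partition in `Loc B`. -/
def Part (B : Set Z → Prop) (S : Set Z) : Prop :=
  ∀ C D : Set Z, IsClosed C → IsClosed D → C ⊆ S → D ⊆ S → Disjoint C D →
      ∃ U V : Set Z, IsOpen U ∧ IsOpen V ∧ C ⊆ U ∧ D ⊆ V ∧ U ∩ V ∩ S = ∅ ∧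
        Loc B (S \ (U ∪ V))

variable {B : Set Z → Prop}

lemma Loc.of_mem {S : Set Z} (hS : IsClosed S) (h : B S) : Loc B S :=
  ⟨hS, fun _ => ⟨univ, isOpen_univ, mem_univ _, by rwa [inter_univ]⟩⟩

lemma Loc.empty (hB : IsIdl B) : Loc B ∅ := Loc.of_mem isClosed_empty hB.empty

lemma Loc.mono (hB : IsIdl B) {S T : Set Z} (hS : Loc B S) (hT : IsClosed T) (hTS : T ⊆ S) :
    Loc B T := by
  refine ⟨hT, fun z => ?_⟩
  obtain ⟨G, hG, hz, hb⟩ := hS.2 z
  exact ⟨G, hG, hz, hB.mono hb (inter_subset_inter_left _ hTS)⟩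

lemma Loc.union (hB : IsIdl B) {S T : Set Z} (hS : Loc B S) (hT : Loc B T) : Loc B (S ∪ T) := by
  refine ⟨hS.1.union hT.1, fun z => ?_⟩
  obtain ⟨G, hG, hz, hb⟩ := hS.2 z
  obtain ⟨G', hG', hz', hb'⟩ := hT.2 z
  refine ⟨G ∩ G', hG.inter hG', ⟨hz, hz'⟩, hB.mono (hB.union hb hb') ?_⟩
  rintro w ⟨h1 | h1, h2, h3⟩
  · exact Or.inl ⟨h1, h2⟩
  · exact Or.inr ⟨h1, h3⟩

lemma Loc.biUnion (hB : IsIdl B) {ι : Type*} {s : Set ι} (hs : s.Finite) {E : ι → Set Z}
    (h : ∀ i ∈ s, Loc B (E i)) : Loc B (⋃ i ∈ s, E i) := by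
  induction s, hs using Set.Finite.induction_on with
  | empty => simpa using Loc.empty hB
  | insert _ _ ih =>
    rw [biUnion_insert]
    exact (h _ (mem_insert _ _)).union hB (ih fun i hi => h i (mem_insert_of_mem _ hi))

lemma Loc.of_local (hB : IsIdl B) {S : Set Z} (hS : IsClosed S)
    (h : ∀ z ∈ S, ∃ G T : Set Z, IsOpen G ∧ z ∈ G ∧ Loc B T ∧ S ∩ G ⊆ T) : Loc B S := by
  refine ⟨hS, fun z => ?_⟩
  by_cases hz : z ∈ S
  · obtain ⟨G, T, hG, hzG, hT, hsub⟩ := h z hz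
    obtain ⟨G', hG', hzG', hb⟩ := hT.2 z
    refine ⟨G ∩ G', hG.inter hG', ⟨hzG, hzG'⟩, hB.mono hb ?_⟩
    rintro w ⟨h1, h2, h3⟩
    exact ⟨hsub ⟨h1, h2⟩, h3⟩
  · refine ⟨Sᶜ, hS.isOpen_compl, hz, ?_⟩
    rw [inter_compl_self]
    exact hB.empty

lemma Part.mono (hB : IsIdl B) {S T : Set Z} (hS : Part B S) (hT : IsClosed T) (hTS : T ⊆ S) :
    Part B T := by
  intro C D hC hD hCT hDT hdisj
  obtain ⟨U, V, hU, hV, hCU, hDV, hUV, hL⟩ :=
    hS C D hC hD (hCT.trans hTS) (hDT.trans hTS) hdisj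
  refine ⟨U, V, hU, hV, hCU, hDV, ?_, ?_⟩
  · rw [← subset_empty_iff, ← hUV]
    exact inter_subset_inter_right _ hTS
  · exact hL.mono hB (hT.sdiff (hU.union hV)) (sdiff_subset_sdiff_left hTS)

lemma countable_reach {ι : Type*} (r : ι → ι → Prop) (hfin : ∀ i, {j | r i j}.Finite) (i : ι) :
    {j | Relation.ReflTransGen r i j}.Countable := by
  let L : ℕ → Set ι := fun n => Nat.rec {i} (fun _ s => ⋃ j ∈ s, {k | r j k}) n
  have hL : ∀ n, (L n).Countable := by
    intro n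
    induction n with
    | zero => exact countable_singleton i
    | succ n ih => exact Countable.biUnion ih (fun j _ => (hfin j).countable)
  refine (countable_iUnion hL).mono ?_
  intro j hj
  induction hj with
  | refl => exact mem_iUnion.mpr ⟨0, rfl⟩
  | tail _ h ih =>
    obtain ⟨n, hn⟩ := mem_iUnion.mp ih
    exact mem_iUnion.mpr ⟨n + 1, mem_biUnion hn h⟩

lemma exists_numbering {ι : Type*} (r : ι → ι → Prop) (hsymm : ∀ i j, r i j → r j i)
    (hfin : ∀ i, {j | r i j}.Finite) :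
    ∃ (s : Setoid ι) (ψ : ι → ℕ), (∀ i j, r i j → s i j) ∧
      (∀ i j, s i j → ψ i = ψ j → i = j) := by
  let s : Setoid ι :=
    { r := Relation.ReflTransGen r
      iseqv := ⟨fun _ => Relation.ReflTransGen.refl,
        fun h => by
          induction h with
          | refl => exact Relation.ReflTransGen.refl
          | tail _ h ih => exact Relation.ReflTransGen.head (hsymm _ _ h) ih,
        fun h h' => h.trans h'⟩ }
  have hc : ∀ q : Quotient s, ∃ f : ι → ℕ, InjOn f {i | Quotient.mk s i = q} := by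
    intro q
    rw [← countable_iff_exists_injOn]
    induction q using Quotient.inductionOn with
    | h i =>
      refine (countable_reach r hfin i).mono ?_
      intro j hj
      exact Quotient.exact (s := s) (Eq.symm hj)
  choose f hf using hc
  refine ⟨s, fun i => f (Quotient.mk s i) i, ?_, ?_⟩
  · intro i j h
    exact Relation.ReflTransGen.single h
  · intro i j h he
    have hq : Quotient.mk s i = Quotient.mk s j := Quotient.sound h
    have he' : f (Quotient.mk s i) i = f (Quotient.mk s i) j :=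
      he.trans (by show f (Quotient.mk s j) j = _; rw [hq])
    exact hf (Quotient.mk s i) rfl hq.symm he'

lemma exists_partition_of_cover (hB : IsIdl B) {S C D : Set Z} (hS : IsClosed S)
    (hCS : C ⊆ S) (hDS : D ⊆ S) {ι : Type*} (P W : ι → Set Z) (lab : ι → Prop)
    (hP : ∀ i, IsOpen (P i)) (hW : ∀ i, IsOpen (W i)) (hcov : ∀ z ∈ S, ∃ i, z ∈ P i)
    (hfin : ∀ i, {j | (P i ∩ P j).Nonempty}.Finite) (hPW : ∀ i, P i ∩ S ⊆ W i)
    (hLoc : ∀ i, Loc B (closure (W i ∩ S) \ W i))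
    (hlabC : ∀ i, ¬ lab i → Disjoint (closure (W i ∩ S)) C)
    (hlabD : ∀ i, lab i → Disjoint (closure (W i ∩ S)) D) :
    ∃ U V : Set Z, IsOpen U ∧ IsOpen V ∧ C ⊆ U ∧ D ⊆ V ∧ U ∩ V ∩ S = ∅ ∧
        Loc B (S \ (U ∪ V)) := by
  classical
  obtain ⟨s, ψ, hs, hψ⟩ := exists_numbering (fun i j => (P i ∩ P j).Nonempty)
    (fun i j h => by rwa [inter_comm]) hfin
  set E : ι → Set Z := fun i => closure (W i ∩ S) with hE
  set κ : ι → Set Z := fun i => ⋃ j ∈ {j | s i j}, P j with hκ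
  have hκo : ∀ i, IsOpen (κ i) := fun i => isOpen_biUnion fun j _ => hP j
  have hPκ : ∀ i, P i ⊆ κ i := fun i => subset_biUnion_of_mem (show i ∈ {j | s i j} from s.refl i)
  have hκs : ∀ i j z, z ∈ κ i → z ∈ κ j → s i j := by
    intro i j z hi hj
    obtain ⟨i', hi', hz⟩ := mem_iUnion₂.mp hi
    obtain ⟨j', hj', hz'⟩ := mem_iUnion₂.mp hj
    exact s.trans (s.trans hi' (hs _ _ ⟨z, hz, hz'⟩)) (s.symm hj')
  have hfinψ : ∀ i, {j | s i j ∧ ψ j < ψ i}.Finite := by
    intro i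
    apply Set.Finite.of_finite_image (f := ψ)
    · exact (finite_lt_nat (ψ i)).subset (by rintro _ ⟨j, hj, rfl⟩; exact hj.2)
    · intro j hj k hk h
      exact hψ j k (s.trans (s.symm hj.1) hk.1) h
  set F : (ι → Prop) → ι → Set Z := fun l i =>
    ⋃ j ∈ {j | (s i j ∧ ψ j < ψ i) ∧ ¬ l j}, E j with hF
  have hFc : ∀ l i, IsClosed (F l i) := by
    intro l i
    apply Set.Finite.isClosed_biUnion
    · exact (hfinψ i).subset (fun j hj => hj.1)
    · intro j _
      exact isClosed_closure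
  set U : Set Z := ⋃ i ∈ {i | lab i}, (κ i ∩ W i) \ F lab i with hU
  set V : Set Z := ⋃ i ∈ {i | ¬ lab i}, (κ i ∩ W i) \ F (fun j => ¬ lab j) i with hV
  have hUo : IsOpen U := isOpen_biUnion fun i _ => ((hκo i).inter (hW i)).sdiff (hFc _ i)
  have hVo : IsOpen V := isOpen_biUnion fun i _ => ((hκo i).inter (hW i)).sdiff (hFc _ i)
  refine ⟨U, V, hUo, hVo, ?_, ?_, ?_, ?_⟩
  · intro z hz
    obtain ⟨i, hi⟩ := hcov z (hCS hz)
    have hzW : z ∈ W i := hPW i ⟨hi, hCS hz⟩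
    have hlab : lab i := by
      by_contra hn
      exact (disjoint_left.mp (hlabC i hn)) (subset_closure ⟨hzW, hCS hz⟩) hz
    refine mem_biUnion (show i ∈ {i | lab i} from hlab) ⟨⟨hPκ i hi, hzW⟩, ?_⟩
    intro hzF
    obtain ⟨j, hj, hzj⟩ := mem_iUnion₂.mp hzF
    exact (disjoint_left.mp (hlabC j hj.2)) hzj hz
  · intro z hz
    obtain ⟨i, hi⟩ := hcov z (hDS hz)
    have hzW : z ∈ W i := hPW i ⟨hi, hDS hz⟩
    have hlab : ¬ lab i := by
      intro hn
      exact (disjoint_left.mp (hlabD i hn)) (subset_closure ⟨hzW, hDS hz⟩) hz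
    refine mem_biUnion (show i ∈ {i | ¬ lab i} from hlab) ⟨⟨hPκ i hi, hzW⟩, ?_⟩
    intro hzF
    obtain ⟨j, hj, hzj⟩ := mem_iUnion₂.mp hzF
    exact (disjoint_left.mp (hlabD j (not_not.mp hj.2))) hzj hz
  · rw [← subset_empty_iff]
    rintro z ⟨⟨hzU, hzV⟩, hzS⟩
    obtain ⟨i, hi, ⟨hzκ, hzW⟩, hzF⟩ := mem_iUnion₂.mp hzU
    obtain ⟨j, hj, ⟨hzκ', hzW'⟩, hzF'⟩ := mem_iUnion₂.mp hzV
    have hsij : s i j := hκs i j z hzκ hzκ'
    have hne : ψ i ≠ ψ j := by
      intro h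
      have hij := hψ i j hsij h
      subst hij
      exact hj hi
    rcases lt_or_gt_of_ne hne with h | h
    · apply hzF'
      exact mem_biUnion (show i ∈ {k | (s j k ∧ ψ k < ψ j) ∧ ¬ ¬ lab k} from
        ⟨⟨s.symm hsij, h⟩, not_not.mpr hi⟩) (subset_closure ⟨hzW, hzS⟩)
    · apply hzF
      exact mem_biUnion (show j ∈ {k | (s i k ∧ ψ k < ψ i) ∧ ¬ lab k} from
        ⟨⟨hsij, h⟩, hj⟩) (subset_closure ⟨hzW', hzS⟩)
  · refine Loc.of_local hB (hS.sdiff (hUo.union hVo)) ?_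
    rintro z ⟨hzS, -⟩
    obtain ⟨i0, hi0⟩ := hcov z hzS
    refine ⟨P i0 ∩ W i0, ⋃ j ∈ {j | s i0 j ∧ ψ j < ψ i0}, (E j \ W j), (hP i0).inter (hW i0),
      ⟨hi0, hPW i0 ⟨hi0, hzS⟩⟩, Loc.biUnion hB (hfinψ i0) (fun j _ => hLoc j), ?_⟩
    rintro w ⟨⟨hwS, hwUV⟩, hwP, hwW⟩
    have hex : ∃ n, ∃ i, s i0 i ∧ w ∈ W i ∧ ψ i = n := ⟨ψ i0, i0, s.refl i0, hwW, rfl⟩
    obtain ⟨i, hsi, hwi, hψi⟩ := Nat.find_spec hex
    have hmin : ∀ j, s i0 j → w ∈ W j → ψ i ≤ ψ j := by
      intro j hj hwj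
      rw [hψi]
      exact Nat.find_min' hex ⟨j, hj, hwj, rfl⟩
    have hle : ψ i ≤ ψ i0 := hmin i0 (s.refl i0) hwW
    have hwκ : w ∈ κ i := mem_biUnion (show i0 ∈ {j | s i j} from s.symm hsi) hwP
    have key : ∃ j, (s i j ∧ ψ j < ψ i) ∧ w ∈ E j := by
      by_cases hl : lab i
      · by_contra hcon
        apply hwUV
        left
        refine mem_biUnion (show i ∈ {i | lab i} from hl) ⟨⟨hwκ, hwi⟩, ?_⟩
        intro hwF
        obtain ⟨j, hj, hwj⟩ := mem_iUnion₂.mp hwF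
        exact hcon ⟨j, hj.1, hwj⟩
      · by_contra hcon
        apply hwUV
        right
        refine mem_biUnion (show i ∈ {i | ¬ lab i} from hl) ⟨⟨hwκ, hwi⟩, ?_⟩
        intro hwF
        obtain ⟨j, hj, hwj⟩ := mem_iUnion₂.mp hwF
        exact hcon ⟨j, hj.1, hwj⟩
    obtain ⟨j, ⟨hsj, hψj⟩, hwE⟩ := key
    have hs0j : s i0 j := s.trans hsi hsj
    refine mem_biUnion (show j ∈ {j | s i0 j ∧ ψ j < ψ i0} from ⟨hs0j, hψj.trans_le hle⟩) ?_
    exact ⟨hwE, fun hwWj => absurd (hmin j hs0j hwWj) (not_le.mpr hψj)⟩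

/-- The local to global step. -/
lemma part_of_local (hB : IsIdl B) (hSP : StronglyParacompact Z) {S : Set Z} (hS : IsClosed S)
    (h : ∀ z ∈ S, ∀ O : Set Z, IsOpen O → z ∈ O → ∃ W : Set Z, IsOpen W ∧ z ∈ W ∧
      closure (W ∩ S) ⊆ O ∧ Loc B (closure (W ∩ S) \ W)) : Part B S := by
  classical
  intro C D hC hD hCS hDS hdisj
  have h1 : ∀ z ∈ S, ∃ W : Set Z, IsOpen W ∧ z ∈ W ∧ Loc B (closure (W ∩ S) \ W) ∧
      (Disjoint (closure (W ∩ S)) C ∨ Disjoint (closure (W ∩ S)) D) := by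
    intro z hz
    by_cases hzC : z ∈ C
    · obtain ⟨W, hW, hzW, hcl, hL⟩ := h z hz Dᶜ hD.isOpen_compl (disjoint_left.mp hdisj hzC)
      exact ⟨W, hW, hzW, hL, Or.inr (disjoint_left.mpr fun w hw hw' => hcl hw hw')⟩
    · obtain ⟨W, hW, hzW, hcl, hL⟩ := h z hz Cᶜ hC.isOpen_compl hzC
      exact ⟨W, hW, hzW, hL, Or.inl (disjoint_left.mpr fun w hw hw' => hcl hw hw')⟩
  obtain ⟨𝒱, h𝒱o, h𝒱c, h𝒱r, h𝒱f⟩ := hSP ({W | IsOpen W ∧ Loc B (closure (W ∩ S) \ W) ∧
      (Disjoint (closure (W ∩ S)) C ∨ Disjoint (closure (W ∩ S)) D)} ∪ {Sᶜ})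
    (by
      rintro U (hU | hU)
      · exact hU.1
      · rw [mem_singleton_iff.mp hU]
        exact hS.isOpen_compl)
    (by
      rw [eq_univ_iff_forall]
      intro z
      by_cases hz : z ∈ S
      · obtain ⟨W, hW, hzW, hL, hd⟩ := h1 z hz
        exact ⟨W, Or.inl ⟨hW, hL, hd⟩, hzW⟩
      · exact ⟨Sᶜ, Or.inr rfl, hz⟩)
  have h2 : ∀ P : 𝒱, ∃ W : Set Z, IsOpen W ∧ (P : Set Z) ∩ S ⊆ W ∧
      Loc B (closure (W ∩ S) \ W) ∧
      (Disjoint (closure (W ∩ S)) C ∨ Disjoint (closure (W ∩ S)) D) := by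
    rintro ⟨P, hP⟩
    obtain ⟨U, hU | hU, hPU⟩ := h𝒱r P hP
    · exact ⟨U, hU.1, inter_subset_left.trans hPU, hU.2⟩
    · rw [mem_singleton_iff.mp hU] at hPU
      refine ⟨∅, isOpen_empty, ?_, ?_, ?_⟩
      · rintro w ⟨hw, hw'⟩
        exact hPU hw hw'
      · simpa using Loc.empty hB
      · left
        simp
  choose W hWo hPW hL hd using h2
  refine exists_partition_of_cover hB hS hCS hDS (fun P : 𝒱 => (P : Set Z)) W
    (fun P => Disjoint (closure (W P ∩ S)) D) (fun P => h𝒱o P P.2) hWo ?_ ?_ hPW hL ?_ ?_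
  · intro z _
    have hz : z ∈ ⋃₀ 𝒱 := by rw [h𝒱c]; exact mem_univ z
    obtain ⟨P, hP, hzP⟩ := hz
    exact ⟨⟨P, hP⟩, hzP⟩
  · intro P
    have := h𝒱f P P.2
    refine Set.Finite.of_finite_image (f := Subtype.val) (this.subset ?_)
      Subtype.val_injective.injOn
    rintro _ ⟨Q, hQ, rfl⟩
    exact ⟨Q.2, hQ⟩
  · intro P hP
    exact (hd P).resolve_right hP
  · intro P hP
    exact hP

end Local

section Product

variable {X : Type u} {Y : Type v} [TopologicalSpace X] [TopologicalSpace Y]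

/-- `S` is covered by finitely many closed rectangles, arranged in two increasing chains,
the dimensions of whose sides add up to at most `K - 1`. -/
def RectCov (K : ℕ) (S : Set (X × Y)) : Prop :=
  ∃ (Q : ℕ → Set X) (R : ℕ → Set Y), (∀ i, IsClosed (Q i)) ∧ (∀ i, IsClosed (R i)) ∧
    Monotone Q ∧ Monotone R ∧ (∀ i, PInd (i + 1) (Q i)) ∧ (∀ i, PInd (i + 1) (R i)) ∧
    ∀ z ∈ S, ∃ i j, i + j + 1 ≤ K ∧ z.1 ∈ Q i ∧ z.2 ∈ R j

lemma rectCov_isIdl (hX : FiniteSumTheorem X) (hY : FiniteSumTheorem Y) (K : ℕ) :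
    IsIdl (RectCov (X := X) (Y := Y) K) where
  empty := ⟨fun _ => ∅, fun _ => ∅, fun _ => isClosed_empty, fun _ => isClosed_empty,
    monotone_const, monotone_const, fun _ => PInd.empty _, fun _ => PInd.empty _,
    fun _ hz => hz.elim⟩
  mono := by
    rintro S T ⟨Q, R, h1, h2, h3, h4, h5, h6, h7⟩ hTS
    exact ⟨Q, R, h1, h2, h3, h4, h5, h6, fun z hz => h7 z (hTS hz)⟩
  union := by
    rintro S T ⟨Q, R, h1, h2, h3, h4, h5, h6, h7⟩ ⟨Q', R', h1', h2', h3', h4', h5', h6', h7'⟩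
    refine ⟨fun i => Q i ∪ Q' i, fun i => R i ∪ R' i, fun i => (h1 i).union (h1' i),
      fun i => (h2 i).union (h2' i), fun i j hij => union_subset_union (h3 hij) (h3' hij),
      fun i j hij => union_subset_union (h4 hij) (h4' hij),
      fun i => hX.union _ (h1 i) (h1' i) (h5 i) (h5' i),
      fun i => hY.union _ (h2 i) (h2' i) (h6 i) (h6' i), ?_⟩
    rintro z (hz | hz)
    · obtain ⟨i, j, hij, hi, hj⟩ := h7 z hz
      exact ⟨i, j, hij, Or.inl hi, Or.inl hj⟩
    · obtain ⟨i, j, hij, hi, hj⟩ := h7' z hz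
      exact ⟨i, j, hij, Or.inr hi, Or.inr hj⟩

lemma rectCov_rect {Q : Set X} {R : Set Y} (hQ : IsClosed Q) (hR : IsClosed R) {a b K : ℕ}
    (ha : PInd (a + 1) Q) (hb : PInd (b + 1) R) (hab : a + b + 1 ≤ K) :
    RectCov K (Q ×ˢ R) := by
  classical
  refine ⟨fun i => if a ≤ i then Q else ∅, fun i => if b ≤ i then R else ∅, ?_, ?_, ?_, ?_, ?_,
    ?_, ?_⟩
  · intro i
    by_cases h : a ≤ i
    · simp [h, hQ]
    · simp [h]
  · intro i
    by_cases h : b ≤ i
    · simp [h, hR]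
    · simp [h]
  · intro i j hij
    by_cases h : a ≤ i
    · simp [h, h.trans hij]
    · simp [h]
  · intro i j hij
    by_cases h : b ≤ i
    · simp [h, h.trans hij]
    · simp [h]
  · intro i
    by_cases h : a ≤ i
    · simpa [h] using ha.mono_nat (by omega : a + 1 ≤ i + 1)
    · simpa [h] using PInd.empty (i + 1)
  · intro i
    by_cases h : b ≤ i
    · simpa [h] using hb.mono_nat (by omega : b + 1 ≤ i + 1)
    · simpa [h] using PInd.empty (i + 1)
  · rintro z ⟨h1, h2⟩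
    exact ⟨a, b, hab, by simpa using h1, by simpa using h2⟩

lemma part_rect [T1Space X] [T1Space Y] (hX : FiniteSumTheorem X) (hY : FiniteSumTheorem Y)
    (hSP : StronglyParacompact (X × Y)) {Q : Set X} {R : Set Y} (hQ : IsClosed Q)
    (hR : IsClosed R) {a b K : ℕ} (ha : PInd (a + 1) Q) (hb : PInd (b + 1) R)
    (hab : a + b ≤ K) : Part (RectCov K) (Q ×ˢ R) := by
  have hB := rectCov_isIdl hX hY K
  refine part_of_local hB hSP (hQ.prod hR) ?_
  rintro ⟨x, y⟩ ⟨hx, hy⟩ O hO hz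
  obtain ⟨O1, O2, hO1, hO2, hx1, hy2, hOO⟩ := isOpen_prod_iff.mp hO x y hz
  have hx' : x ∈ Q := hx
  have hy' : y ∈ R := hy
  obtain ⟨U1, V1, hU1, hV1, hxU, hV1', hUV1, hP1⟩ := ha {x} (Q \ O1) isClosed_singleton
    (hQ.sdiff hO1) (singleton_subset_iff.mpr hx') sdiff_subset
    (disjoint_singleton_left.mpr fun h => h.2 hx1)
  obtain ⟨U2, V2, hU2, hV2, hyU, hV2', hUV2, hP2⟩ := hb {y} (R \ O2) isClosed_singleton
    (hR.sdiff hO2) (singleton_subset_iff.mpr hy') sdiff_subset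
    (disjoint_singleton_left.mpr fun h => h.2 hy2)
  have hcl : closure ((U1 ×ˢ U2) ∩ (Q ×ˢ R)) ⊆ (Q \ V1) ×ˢ (R \ V2) := by
    apply closure_minimal _ ((hQ.sdiff hV1).prod (hR.sdiff hV2))
    rintro ⟨p, q⟩ ⟨⟨h1, h2⟩, h3, h4⟩
    refine ⟨⟨h3, fun h => ?_⟩, ⟨h4, fun h => ?_⟩⟩
    · have : p ∈ U1 ∩ V1 ∩ Q := ⟨⟨h1, h⟩, h3⟩
      rw [hUV1] at this
      exact this
    · have : q ∈ U2 ∩ V2 ∩ R := ⟨⟨h2, h⟩, h4⟩
      rw [hUV2] at this
      exact this
  refine ⟨U1 ×ˢ U2, hU1.prod hU2, ⟨hxU rfl, hyU rfl⟩, ?_, ?_⟩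
  · refine hcl.trans ?_
    rintro ⟨p, q⟩ ⟨⟨h1, h2⟩, h3, h4⟩
    apply hOO
    refine ⟨?_, ?_⟩
    · by_contra hn
      exact h2 (hV1' ⟨h1, hn⟩)
    · by_contra hn
      exact h4 (hV2' ⟨h3, hn⟩)
  · set L1 := Q \ (U1 ∪ V1) with hL1
    set L2 := R \ (U2 ∪ V2) with hL2
    have hL1c : IsClosed L1 := hQ.sdiff (hU1.union hV1)
    have hL2c : IsClosed L2 := hR.sdiff (hU2.union hV2)
    have h1 : Loc (RectCov K) (L1 ×ˢ R) := by
      cases a with
      | zero =>
        have : L1 = ∅ := hP1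
        rw [this, empty_prod]
        exact Loc.empty hB
      | succ a => exact Loc.of_mem (hL1c.prod hR) (rectCov_rect hL1c hR hP1 hb (by omega))
    have h2 : Loc (RectCov K) (Q ×ˢ L2) := by
      cases b with
      | zero =>
        have : L2 = ∅ := hP2
        rw [this, prod_empty]
        exact Loc.empty hB
      | succ b => exact Loc.of_mem (hQ.prod hL2c) (rectCov_rect hQ hL2c ha hP2 (by omega))
    refine (h1.union hB h2).mono hB (isClosed_closure.sdiff (hU1.prod hU2)) ?_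
    rintro ⟨p, q⟩ ⟨hpq, hn⟩
    obtain ⟨⟨h3, h4⟩, h5, h6⟩ := hcl hpq
    by_cases hp : p ∈ U1
    · right
      refine ⟨h3, h5, ?_⟩
      rintro (h | h)
      · exact hn ⟨hp, h⟩
      · exact h6 h
    · left
      refine ⟨⟨h3, ?_⟩, h5⟩
      rintro (h | h)
      · exact hp h
      · exact h4 h

variable [T4Space (X × Y)]

lemma part_rectCov [T1Space X] [T1Space Y] (hX : FiniteSumTheorem X) (hY : FiniteSumTheorem Y)
    (hSP : StronglyParacompact (X × Y)) {K : ℕ} {S : Set (X × Y)} (hS : IsClosed S)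
    (h : RectCov (K + 1) S) : Part (RectCov K) S := by
  have hB := rectCov_isIdl hX hY K
  obtain ⟨Q, R, hQ, hR, hQm, hRm, hQd, hRd, hcov⟩ := h
  intro C D hC hD hCS hDS hdisj
  obtain ⟨WC, hWC, hCWC, hWCD⟩ := normal_exists_closure_subset hC hD.isOpen_compl
    hdisj.subset_compl_right
  obtain ⟨WD, hWD, hDWD, hWDC⟩ := normal_exists_closure_subset hD
    (isClosed_closure (s := WC)).isOpen_compl (subset_compl_comm.mp hWCD)
  set Z : ℕ → Set (X × Y) := fun i => Q i ×ˢ R (K - i) with hZ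
  set N : Set (X × Y) := ⋃ i ∈ {i | i < K}, Q i ×ˢ R (K - 1 - i) with hN
  have hZc : ∀ i, IsClosed (Z i) := fun i => (hQ i).prod (hR _)
  have hNc : IsClosed N := by
    apply Set.Finite.isClosed_biUnion (finite_lt_nat K)
    intro i _
    exact (hQ i).prod (hR _)
  have hNB : RectCov K N := by
    refine ⟨Q, R, hQ, hR, hQm, hRm, hQd, hRd, ?_⟩
    intro z hz
    obtain ⟨i, hi, h1, h2⟩ := mem_iUnion₂.mp hz
    have hi' : i < K := hi
    exact ⟨i, K - 1 - i, by omega, h1, h2⟩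
  have hcovZ : ∀ z ∈ S, ∃ i, i ≤ K ∧ z ∈ Z i := by
    intro z hz
    obtain ⟨i, j, hij, h1, h2⟩ := hcov z hz
    exact ⟨i, by omega, h1, hRm (by omega : j ≤ K - i) h2⟩
  have hZN' : ∀ i j, i < j → j ≤ K → Z i ∩ Z j ⊆ N := by
    rintro i j hij hjK z ⟨⟨h1, _⟩, _, h4⟩
    exact mem_biUnion (show i ∈ {i | i < K} from by simp only [mem_ofPred_eq]; omega)
      ⟨h1, hRm (by omega : K - j ≤ K - 1 - i) h4⟩
  have hZN : ∀ i j, i ≠ j → i ≤ K → j ≤ K → Z i ∩ Z j ⊆ N := by
    intro i j hne hi hj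
    rcases lt_or_gt_of_ne hne with h | h
    · exact hZN' i j h hj
    · rw [inter_comm]
      exact hZN' j i h hi
  have hpart : ∀ i, ∃ U V : Set (X × Y), i ≤ K → IsOpen U ∧ IsOpen V ∧
      Z i ∩ closure WC ⊆ U ∧ Z i ∩ closure WD ⊆ V ∧ U ∩ V ∩ Z i = ∅ ∧
        Loc (RectCov K) (Z i \ (U ∪ V)) := by
    intro i
    by_cases hi : i ≤ K
    · obtain ⟨U, V, hUV⟩ := part_rect hX hY hSP (hQ i) (hR (K - i)) (hQd i) (hRd (K - i))
        (by omega : i + (K - i) ≤ K) (Z i ∩ closure WC) (Z i ∩ closure WD)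
        ((hZc i).inter isClosed_closure) ((hZc i).inter isClosed_closure)
        inter_subset_left inter_subset_left
        (disjoint_left.mpr fun z hz hz' => hWDC hz'.2 hz.2)
      exact ⟨U, V, fun _ => hUV⟩
    · exact ⟨∅, ∅, fun h => absurd h hi⟩
  choose U V hUV using hpart
  set M : ℕ → Set (X × Y) := fun i => N ∪ ⋃ j ∈ {j | j ≤ K ∧ j ≠ i}, Z j with hM
  have hMc : ∀ i, IsClosed (M i) := by
    intro i
    apply hNc.union
    apply Set.Finite.isClosed_biUnion ((finite_le_nat K).subset fun j hj => hj.1)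
    intro j _
    exact hZc j
  have hMi : ∀ i z, z ∈ S → z ∉ M i → z ∈ Z i := by
    intro i z hz hzM
    obtain ⟨j, hj, hzj⟩ := hcovZ z hz
    by_cases hji : j = i
    · rwa [← hji]
    · exact absurd (Or.inr (mem_biUnion (show j ∈ {j | j ≤ K ∧ j ≠ i} from ⟨hj, hji⟩) hzj)) hzM
  refine ⟨(⋃ i ∈ {i | i ≤ K}, (U i \ M i)) ∪ WC, (⋃ i ∈ {i | i ≤ K}, (V i \ M i)) ∪ WD,
    ?_, ?_, ?_, ?_, ?_, ?_⟩
  · exact (isOpen_biUnion fun i hi => (hUV i hi).1.sdiff (hMc i)).union hWC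
  · exact (isOpen_biUnion fun i hi => (hUV i hi).2.1.sdiff (hMc i)).union hWD
  · exact hCWC.trans subset_union_right
  · exact hDWD.trans subset_union_right
  · rw [← subset_empty_iff]
    rintro z ⟨⟨h1 | h1, h2 | h2⟩, hzS⟩
    · obtain ⟨i, hi, h3, h4⟩ := mem_iUnion₂.mp h1
      obtain ⟨j, hj, h5, h6⟩ := mem_iUnion₂.mp h2
      have hzi := hMi i z hzS h4
      have hzj := hMi j z hzS h6
      have hij : i = j := by
        by_contra hne
        exact h4 (Or.inl (hZN i j hne hi hj ⟨hzi, hzj⟩))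
      subst hij
      have : z ∈ U i ∩ V i ∩ Z i := ⟨⟨h3, h5⟩, hzi⟩
      rw [(hUV i hi).2.2.2.2.1] at this
      exact this
    · obtain ⟨i, hi, h3, h4⟩ := mem_iUnion₂.mp h1
      have hzi := hMi i z hzS h4
      have : z ∈ U i ∩ V i ∩ Z i :=
        ⟨⟨h3, (hUV i hi).2.2.2.1 ⟨hzi, subset_closure h2⟩⟩, hzi⟩
      rw [(hUV i hi).2.2.2.2.1] at this
      exact this
    · obtain ⟨i, hi, h3, h4⟩ := mem_iUnion₂.mp h2
      have hzi := hMi i z hzS h4
      have : z ∈ U i ∩ V i ∩ Z i :=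
        ⟨⟨(hUV i hi).2.2.1 ⟨hzi, subset_closure h1⟩, h3⟩, hzi⟩
      rw [(hUV i hi).2.2.2.2.1] at this
      exact this
    · exact hWDC (subset_closure h2) (subset_closure h1)
  · refine ((Loc.biUnion hB (finite_le_nat K) (fun i hi => (hUV i hi).2.2.2.2.2)).union hB
      (Loc.of_mem hNc hNB)).mono hB (hS.sdiff (IsOpen.union ?_ ?_)) ?_
    · exact (isOpen_biUnion fun i hi => (hUV i hi).1.sdiff (hMc i)).union hWC
    · exact (isOpen_biUnion fun i hi => (hUV i hi).2.1.sdiff (hMc i)).union hWD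
    · rintro z ⟨hzS, hz⟩
      by_cases hzN : z ∈ N
      · exact Or.inr hzN
      left
      obtain ⟨i, hi, hzi⟩ := hcovZ z hzS
      have hzM : z ∉ M i := by
        rintro (h | h)
        · exact hzN h
        · obtain ⟨j, hj, hzj⟩ := mem_iUnion₂.mp h
          exact hzN (hZN i j (Ne.symm hj.2) hi hj.1 ⟨hzi, hzj⟩)
      refine mem_biUnion (show i ∈ {i | i ≤ K} from hi) ⟨hzi, ?_⟩
      rintro (h | h)
      · exact hz (Or.inl (Or.inl (mem_biUnion (show i ∈ {i | i ≤ K} from hi) ⟨h, hzM⟩)))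
      · exact hz (Or.inr (Or.inl (mem_biUnion (show i ∈ {i | i ≤ K} from hi) ⟨h, hzM⟩)))

lemma part_loc [T1Space X] [T1Space Y] (hX : FiniteSumTheorem X) (hY : FiniteSumTheorem Y)
    (hSP : StronglyParacompact (X × Y)) {K : ℕ} {S : Set (X × Y)}
    (h : Loc (RectCov (K + 1)) S) : Part (RectCov K) S := by
  have hB := rectCov_isIdl hX hY K
  have hS := h.1
  refine part_of_local hB hSP hS ?_
  intro z hzS O hO hzO
  obtain ⟨G, hG, hzG, hb⟩ := h.2 z
  obtain ⟨H, hH, hzH, hHcl⟩ := normal_exists_closure_subset (isClosed_singleton (x := z))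
    (hG.inter hO) (singleton_subset_iff.mpr ⟨hzG, hzO⟩)
  have hT : IsClosed (S ∩ closure H) := hS.inter isClosed_closure
  have hTb : RectCov (K + 1) (S ∩ closure H) :=
    (rectCov_isIdl hX hY (K + 1)).mono hb (inter_subset_inter_right _ (hHcl.trans
      inter_subset_left))
  have hzH' : z ∈ H := hzH rfl
  obtain ⟨U, V, hU, hV, hzU, hDV, hUV, hL⟩ := part_rectCov hX hY hSP hT hTb {z}
    ((S ∩ closure H) \ H) isClosed_singleton (hT.sdiff hH)
    (singleton_subset_iff.mpr ⟨hzS, subset_closure hzH'⟩) sdiff_subset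
    (disjoint_singleton_left.mpr fun h => h.2 hzH')
  have hcl : closure (U ∩ H ∩ S) ⊆ S ∩ closure H := by
    apply closure_minimal _ hT
    rintro w ⟨⟨_, h2⟩, h3⟩
    exact ⟨h3, subset_closure h2⟩
  have hclV : closure (U ∩ H ∩ S) ⊆ Vᶜ := by
    apply closure_minimal _ hV.isClosed_compl
    rintro w ⟨⟨h1, h2⟩, h3⟩ h4
    have : w ∈ U ∩ V ∩ (S ∩ closure H) := ⟨⟨h1, h4⟩, h3, subset_closure h2⟩
    rw [hUV] at this
    exact this
  refine ⟨U ∩ H, hU.inter hH, ⟨hzU rfl, hzH'⟩, ?_, ?_⟩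
  · exact hcl.trans (inter_subset_right.trans (hHcl.trans inter_subset_right))
  · refine hL.mono hB (isClosed_closure.sdiff (hU.inter hH)) ?_
    rintro w ⟨h1, h2⟩
    have h3 := hcl h1
    have h4 := hclV h1
    refine ⟨h3, ?_⟩
    rintro (h5 | h5)
    · apply h2
      refine ⟨h5, ?_⟩
      by_contra h6
      exact h4 (hDV ⟨h3, h6⟩)
    · exact h4 h5

lemma pInd_of_loc [T1Space X] [T1Space Y] (hX : FiniteSumTheorem X) (hY : FiniteSumTheorem Y)
    (hSP : StronglyParacompact (X × Y)) : ∀ (K : ℕ) {S : Set (X × Y)},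
    Loc (RectCov K) S → PInd K S := by
  intro K
  induction K with
  | zero =>
    intro S h
    show S = ∅
    rw [← subset_empty_iff]
    intro z hz
    obtain ⟨G, _, hzG, Q, R, _, _, _, _, _, _, hc⟩ := h.2 z
    obtain ⟨i, j, hij, _⟩ := hc z ⟨hz, hzG⟩
    omega
  | succ K ih =>
    intro S h C D hC hD hCS hDS hdisj
    obtain ⟨U, V, hU, hV, hCU, hDV, hUV, hL⟩ := part_loc hX hY hSP h C D hC hD hCS hDS hdisj
    exact ⟨U, V, hU, hV, hCU, hDV, hUV, ih hL⟩

lemma indLE_prod [T1Space X] [T1Space Y] (hX : FiniteSumTheorem X) (hY : FiniteSumTheorem Y)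
    (hSP : StronglyParacompact (X × Y)) {a b : ℕ} (ha : IndLE (a + 1) X)
    (hb : IndLE (b + 1) Y) : IndLE (a + b + 1) (X × Y) := by
  rw [IndLE_iff_univ] at *
  apply pInd_of_loc hX hY hSP
  refine Loc.of_mem isClosed_univ ?_
  have := rectCov_rect isClosed_univ isClosed_univ ha hb (le_refl (a + b + 1))
  rwa [univ_prod_univ] at this

end Product

lemma Ind_eq_neg_one {W : Type u} [TopologicalSpace W] [h : IsEmpty W] :
    Ind W = ((-1 : ℤ) : WithTop ℤ) := by
  classical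
  have h0 : ∃ k : ℕ, IndLE k W := ⟨0, h⟩
  have h1 : Nat.find h0 = 0 := (Nat.find_eq_zero h0).mpr h
  unfold Ind
  rw [dif_pos h0, h1]
  norm_num

lemma zero_le_Ind {W : Type u} [TopologicalSpace W] [h : Nonempty W] :
    ((0 : ℤ) : WithTop ℤ) ≤ Ind W := by
  classical
  unfold Ind
  split_ifs with h0
  · rw [WithTop.coe_le_coe]
    have : Nat.find h0 ≠ 0 := by
      intro h1
      have h2 : IsEmpty W := (Nat.find_eq_zero h0).mp h1
      exact (not_isEmpty_of_nonempty W) h2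
    omega
  · exact le_top

lemma exists_Ind_eq {W : Type u} [TopologicalSpace W] [h : Nonempty W] (hW : Ind W ≠ ⊤) :
    ∃ a : ℕ, Ind W = ((a : ℤ) : WithTop ℤ) ∧ IndLE (a + 1) W := by
  classical
  have h0 : ∃ k : ℕ, IndLE k W := by
    by_contra hn
    apply hW
    unfold Ind
    rw [dif_neg hn]
  have h1 : Nat.find h0 ≠ 0 := by
    intro h1
    have h2 : IsEmpty W := (Nat.find_eq_zero h0).mp h1
    exact (not_isEmpty_of_nonempty W) h2
  obtain ⟨a, ha⟩ := Nat.exists_eq_succ_of_ne_zero h1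
  refine ⟨a, ?_, ?_⟩
  · unfold Ind
    rw [dif_pos h0, ha]
    simp
  · have := Nat.find_spec h0
    rwa [ha] at this

lemma t1_left {X : Type u} {Y : Type v} [TopologicalSpace X] [TopologicalSpace Y]
    [T1Space (X × Y)] [Nonempty Y] : T1Space X := by
  obtain ⟨y⟩ := ‹Nonempty Y›
  refine ⟨fun x => ?_⟩
  have h1 : IsClosed ((fun x' : X => (x', y)) ⁻¹' {(x, y)}) :=
    (isClosed_singleton (x := (x, y))).preimage (by fun_prop)
  have h2 : (fun x' : X => (x', y)) ⁻¹' {(x, y)} = {x} := by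
    ext x'
    simp
  rwa [h2] at h1

lemma t1_right {X : Type u} {Y : Type v} [TopologicalSpace X] [TopologicalSpace Y]
    [T1Space (X × Y)] [Nonempty X] : T1Space Y := by
  obtain ⟨x⟩ := ‹Nonempty X›
  refine ⟨fun y => ?_⟩
  have h1 : IsClosed ((fun y' : Y => (x, y')) ⁻¹' {(x, y)}) :=
    (isClosed_singleton (x := (x, y))).preimage (by fun_prop)
  have h2 : (fun y' : Y => (x, y')) ⁻¹' {(x, y)} = {y} := by
    ext y'
    simp
  rwa [h2] at h1

/-- The large inductive dimension of a normal strongly paracompact product of two spaces that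
satisfy the finite sum theorem is at most the sum of the dimensions of the factors. -/
theorem result (X : Type u) (Y : Type v) [TopologicalSpace X] [TopologicalSpace Y]
    [T4Space (X × Y)] (hne : Nonempty X ∨ Nonempty Y)
    (hX : FiniteSumTheorem X) (hY : FiniteSumTheorem Y)
    (hSP : StronglyParacompact (X × Y)) :
    Ind (X × Y) ≤ Ind X + Ind Y := by
  rcases isEmpty_or_nonempty X with hXe | hXn
  · rcases isEmpty_or_nonempty Y with hYe | hYn
    · rcases hne with h | h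
      · exact absurd h (not_nonempty_iff.mpr hXe)
      · exact absurd h (not_nonempty_iff.mpr hYe)
    · rw [Ind_eq_neg_one (W := X × Y), Ind_eq_neg_one (W := X)]
      calc ((-1 : ℤ) : WithTop ℤ) = ((-1 : ℤ) : WithTop ℤ) + ((0 : ℤ) : WithTop ℤ) := by
            rw [← WithTop.coe_add]; norm_num
        _ ≤ _ := by gcongr; exact zero_le_Ind
  · rcases isEmpty_or_nonempty Y with hYe | hYn
    · rw [Ind_eq_neg_one (W := X × Y), Ind_eq_neg_one (W := Y)]
      calc ((-1 : ℤ) : WithTop ℤ) = ((0 : ℤ) : WithTop ℤ) + ((-1 : ℤ) : WithTop ℤ) := by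
            rw [← WithTop.coe_add]; norm_num
        _ ≤ _ := by gcongr; exact zero_le_Ind
    · have hX1 : T1Space X := t1_left (Y := Y)
      have hY1 : T1Space Y := t1_right (X := X)
      by_cases hXt : Ind X = ⊤
      · rw [hXt]
        simp
      by_cases hYt : Ind Y = ⊤
      · rw [hYt]
        simp
      obtain ⟨a, ha, ha'⟩ := exists_Ind_eq hXt
      obtain ⟨b, hb, hb'⟩ := exists_Ind_eq hYt
      have h := indLE_prod hX hY hSP ha' hb'
      rw [← Ind_le_iff] at h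
      refine h.trans ?_
      rw [ha, hb, ← WithTop.coe_add, WithTop.coe_le_coe]
      push_cast
      omega

end Pool.Agent.Results.MP_bd525c_gt.StronglyParacompactProduct
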